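import Pool.Agent.MP_f8f515_al.ClassThree

set_option autoImplicit false

open Pool.Agent.MP_f8f515_al

universe u

/-- Every centrally nilpotent loop of class at least three with abelian inner mapping group has an
infinite multiplication group or one of order at least `8192`. -/
theorem Pool.Agent.Results.MP_f8f515_al.SmallMlt.result (Q : Type u) [LoopStr Q]
    (hnil : ∃ n, UCS Q n = Set.univ) (hclass : UCS Q 2 ≠ Set.univ)
    (habel : ∀ g ∈ Inn Q, ∀ h ∈ Inn Q, g * h = h * g) :
    Infinite (Mlt Q) ∨ 8192 ≤ Nat.card (Mlt Q) :=
  infinite_or_card_ge Q hnil hclass habel
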